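import Pool.Agent.Helper57.QZ.Stmts

/-! # Row FIN -/

set_option autoImplicit false

namespace Pool.Agent.Helper57.QZ

open MeasureTheory Set Filter Topology

theorem fin_top_bounds (N T a b : ℝ) (f : ℝ → ℝ)
    (ha : T / N ≤ volume.real {t : ℝ | t ∈ Icc T (2 * T) ∧ a ≤ f t})
    (hb : volume.real {t : ℝ | t ∈ Icc T (2 * T) ∧ b ≤ f t} < T / N) :
    a ≤ top N T f ∧ top N T f ≤ b := by
  have hub : ∀ v ∈ {v : ℝ | T / N ≤ volume.real {t : ℝ | t ∈ Icc T (2 * T) ∧ v ≤ f t}},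
      v ≤ b := by
    intro v hv
    by_contra hcon
    push Not at hcon
    have hsub : {t : ℝ | t ∈ Icc T (2 * T) ∧ v ≤ f t} ⊆ {t : ℝ | t ∈ Icc T (2 * T) ∧ b ≤ f t} :=
      fun t ht => ⟨ht.1, hcon.le.trans ht.2⟩
    have hfin : volume {t : ℝ | t ∈ Icc T (2 * T) ∧ b ≤ f t} ≠ ⊤ :=
      ne_top_of_le_ne_top (by simp : volume (Icc T (2 * T)) ≠ ⊤) (measure_mono fun t ht => ht.1)
    have := measureReal_mono hsub hfin
    exact absurd (le_trans hv this) (not_le.mpr hb)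
  exact ⟨le_csSup ⟨b, hub⟩ ha, csSup_le ⟨a, ha⟩ hub⟩

theorem fin_arith (δ d η A B t1 t2 t3 : ℝ) (hd : 0 < d) (hdδ : d ≤ δ) (hd1 : d ≤ 1)
    (hη : η = d / 8) (hA : 1 ≤ A) (hB : 1 ≤ B) (h1 : (1 - η) * A ≤ t1) (h1' : t1 ≤ (1 + η) * A)
    (h2 : (1 - η) * (A * B) ≤ t2) (h2' : t2 ≤ (1 + η) * (A * B))
    (h3 : (1 - η) * B ≤ t3) (h3' : t3 ≤ (1 + η) * B) :
    (1 - δ) * (t2 / t1) ≤ t3 ∧ t3 ≤ (1 + δ) * (t2 / t1) := by
  have hη0 : 0 < η := by rw [hη]; positivity
  have hη1 : η ≤ 1 / 8 := by rw [hη]; linarith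
  have hA0 : 0 < A := by linarith
  have hB0 : 0 < B := by linarith
  have ht1 : 0 < t1 := lt_of_lt_of_le (mul_pos (by linarith) hA0) h1
  have ht2 : 0 ≤ t2 := le_trans (mul_nonneg (by linarith) (by positivity)) h2
  have hup : t2 / t1 ≤ (1 + η) / (1 - η) * B := by
    rw [div_le_iff₀ ht1]
    have e : (1 + η) / (1 - η) * B * ((1 - η) * A) = (1 + η) * (A * B) := by
      have : (1 - η) ≠ 0 := by linarith
      field_simp
    have : (1 + η) / (1 - η) * B * ((1 - η) * A) ≤ (1 + η) / (1 - η) * B * t1 := by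
      apply mul_le_mul_of_nonneg_left h1
      have : 0 < 1 - η := by linarith
      positivity
    linarith
  have hlo : (1 - η) / (1 + η) * B ≤ t2 / t1 := by
    rw [le_div_iff₀ ht1]
    have e : (1 - η) / (1 + η) * B * ((1 + η) * A) = (1 - η) * (A * B) := by
      have : (1 + η) ≠ 0 := by linarith
      field_simp
    have : (1 - η) / (1 + η) * B * t1 ≤ (1 - η) / (1 + η) * B * ((1 + η) * A) := by
      apply mul_le_mul_of_nonneg_left h1'
      have : 0 < 1 - η := by linarith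
      positivity
    linarith
  have hr0 : 0 ≤ t2 / t1 := div_nonneg ht2 ht1.le
  constructor
  · have s1 : (1 - δ) * (t2 / t1) ≤ (1 - d) * (t2 / t1) :=
      mul_le_mul_of_nonneg_right (by linarith) hr0
    have s2 : (1 - d) * (t2 / t1) ≤ (1 - d) * ((1 + η) / (1 - η) * B) :=
      mul_le_mul_of_nonneg_left hup (by linarith)
    have s3 : (1 - d) * ((1 + η) / (1 - η) * B) ≤ (1 - η) * B := by
      have e : (1 - d) * ((1 + η) / (1 - η) * B) = ((1 - d) * (1 + η) / (1 - η)) * B := by ring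
      rw [e]
      apply mul_le_mul_of_nonneg_right _ hB0.le
      rw [div_le_iff₀ (by linarith)]
      have : d = 8 * η := by rw [hη]; ring
      rw [this]
      nlinarith
    linarith
  · have s1 : (1 + d) * (t2 / t1) ≤ (1 + δ) * (t2 / t1) :=
      mul_le_mul_of_nonneg_right (by linarith) hr0
    have s2 : (1 + d) * ((1 - η) / (1 + η) * B) ≤ (1 + d) * (t2 / t1) :=
      mul_le_mul_of_nonneg_left hlo (by linarith)
    have s3 : (1 + η) * B ≤ (1 + d) * ((1 - η) / (1 + η) * B) := by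
      have e : (1 + d) * ((1 - η) / (1 + η) * B) = ((1 + d) * (1 - η) / (1 + η)) * B := by ring
      rw [e]
      apply mul_le_mul_of_nonneg_right _ hB0.le
      rw [le_div_iff₀ (by linarith)]
      have : d = 8 * η := by rw [hη]; ring
      rw [this]
      nlinarith
    linarith

theorem fin_of (h : ST_TS) : ST_FIN := by
  intro ε hε δ hδ
  set d : ℝ := min δ 1 with hd
  have hd0 : 0 < d := lt_min hδ one_pos
  have hd1 : d ≤ 1 := min_le_right _ _
  have hdδ : d ≤ δ := min_le_left _ _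
  obtain ⟨N₀, hN₀, hN⟩ := h ε hε (d / 8) ⟨by positivity, by linarith⟩
  refine ⟨N₀, hN₀, fun N hNN => ?_⟩
  obtain ⟨T₀, hT₀, hT⟩ := hN N hNN
  refine ⟨T₀, by linarith, fun T hTT σ hσ θ => ?_⟩
  obtain ⟨A, B, hA, hB, a1, a2, b1, b2, hc⟩ := hT T hTT σ hσ
  obtain ⟨c1, c2⟩ := hc θ
  have k1 := fin_top_bounds N T _ _ (fun t => ‖riemannZeta (pt σ t)‖) a1 a2
  have k2 := fin_top_bounds N T _ _ (fun t => ‖deriv riemannZeta (pt σ t)‖) b1 b2
  have k3 := fin_top_bounds N T _ _ (fun t => (Complex.exp (-((θ : ℂ) * Complex.I)) *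
        (deriv riemannZeta (pt σ t) / riemannZeta (pt σ t))).re) c1 c2
  exact fin_arith δ d (d / 8) A B _ _ _ hd0 hdδ hd1 rfl hA hB k1.1 k1.2 k2.1 k2.2 k3.1 k3.2

end Pool.Agent.Helper57.QZ
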